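import Pool.Agent.H96.HK.Targets
import Pool.Agent.H96.HK.Basic

/-!
# Kernels of high modes are exponentially small in the core (MP_e94f6f_an, module KDEC)
-/

open MeasureTheory Set Filter Topology ProbabilityTheory
open scoped ContDiff

namespace Pool.Agent.H89.HK

open Pool.Agent.H96.HK

theorem c1_deriv {f : ℝ → ℝ} (h : ContDiff ℝ 2 f) : ContDiff ℝ 1 (deriv f) := by
  have := (contDiff_succ_iff_deriv (𝕜 := ℝ) (n := 1) (f := f)).1 (by rw [one_add_one_eq_two]; exact h)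
  exact this.2.2

/-- the barrier -/
noncomputable def wb (A C1 k t1 : ℝ) (η : ℝ → ℝ) (t s : ℝ) : ℝ :=
  A * Real.exp (C1 * (t - t1) - k * (t - t1) * η s)

section
variable {A C1 k t1 : ℝ} {η : ℝ → ℝ}

theorem wb_s (hη : ContDiff ℝ 2 η) (t s : ℝ) :
    HasDerivAt (wb A C1 k t1 η t) (wb A C1 k t1 η t s * (-(k * (t - t1) * deriv η s))) s := by
  have h1 : HasDerivAt η (deriv η s) s := (hη.differentiable (by simp)).differentiableAt.hasDerivAt
  have h2 : HasDerivAt (fun s => C1 * (t - t1) - k * (t - t1) * η s) (-(k * (t - t1) * deriv η s)) s :=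
    (h1.const_mul (k * (t - t1))).const_sub (C1 * (t - t1))
  have h3 := (h2.exp).const_mul A
  convert! h3 using 1
  simp only [wb]
  ring

theorem wb_t (t s : ℝ) :
    HasDerivAt (fun τ => wb A C1 k t1 η τ s) (wb A C1 k t1 η t s * (C1 - k * η s)) t := by
  have h1 : HasDerivAt (fun τ : ℝ => τ - t1) 1 t := by simpa using (hasDerivAt_id t).sub_const t1
  have h2 : HasDerivAt (fun τ => C1 * (τ - t1) - k * (τ - t1) * η s) (C1 * 1 - k * 1 * η s) t :=
    (h1.const_mul C1).sub ((h1.const_mul k).mul_const (η s))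
  have h3 := (h2.exp).const_mul A
  convert! h3 using 1
  simp only [wb]
  ring

theorem wb_ss (hη : ContDiff ℝ 2 η) (t s : ℝ) :
    HasDerivAt (deriv (wb A C1 k t1 η t))
      (wb A C1 k t1 η t s * ((k * (t - t1) * deriv η s) ^ 2 - k * (t - t1) * deriv (deriv η) s)) s := by
  have h0 : deriv (wb A C1 k t1 η t) = fun s => wb A C1 k t1 η t s * (-(k * (t - t1) * deriv η s)) := by
    ext s; exact (wb_s hη t s).deriv
  have hη' : ContDiff ℝ 1 (deriv η) := c1_deriv hη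
  have h1 : HasDerivAt (deriv η) (deriv (deriv η) s) s :=
    (hη'.differentiable (by simp)).differentiableAt.hasDerivAt
  rw [h0]
  have h2 := (wb_s (A := A) (C1 := C1) (k := k) (t1 := t1) hη t s).mul ((h1.const_mul (k * (t - t1))).fun_neg)
  convert! h2 using 1
  ring

theorem wb_contDiff (hη : ContDiff ℝ 2 η) (t : ℝ) : ContDiff ℝ 2 (wb A C1 k t1 η t) := by
  unfold wb
  exact contDiff_const.mul (Real.contDiff_exp.comp (contDiff_const.sub (contDiff_const.mul hη)))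

theorem wb_cont (hη : ContDiff ℝ 2 η) : Continuous (fun z : ℝ × ℝ => wb A C1 k t1 η z.1 z.2) := by
  unfold wb
  have := hη.continuous
  fun_prop

/-- comparison with the barrier -/
theorem barrier (hCM1 : T_CM1) {V : ℝ → ℝ} {B T : ℝ} (hA : 0 ≤ A) (hη : ContDiff ℝ 2 η) (hVB : ∀ s, -B ≤ V s)
    (ht : t1 < T)
    (hV : ∀ t ∈ Icc t1 T, ∀ s, 0 ≤ C1 - k * η s - (k * (t - t1) * deriv η s) ^ 2 +
      k * (t - t1) * deriv (deriv η) s + V s)
    (u : ℝ → ℝ → ℝ) (hc : ContinuousOn (fun z : ℝ × ℝ => u z.1 z.2) (Icc t1 T ×ˢ univ))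
    (hdec : ∀ ε > 0, ∃ R, ∀ t ∈ Icc t1 T, ∀ s, R ≤ |s| → u t s ≤ ε) (h0 : ∀ s, u t1 s ≤ A)
    (hsol : ∀ t ∈ Ioc t1 T, ContDiff ℝ 2 (u t) ∧ ∀ s,
      HasDerivAt (fun τ => u τ s) (deriv (deriv (u t)) s - V s * u t s) t) :
    ∀ t ∈ Icc t1 T, ∀ s, u t s ≤ wb A C1 k t1 η t s := by
  have hw0 : ∀ t s, 0 ≤ wb A C1 k t1 η t s := fun t s => mul_nonneg hA (Real.exp_pos _).le
  have := hCM1 V B t1 T (fun t s => u t s - wb A C1 k t1 η t s) hVB ht
    (hc.sub (wb_cont hη).continuousOn) ?_ ?_ ?_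
  · intro t ht' s
    linarith [this t ht' s]
  · intro ε hε
    obtain ⟨R, hR⟩ := hdec ε hε
    exact ⟨R, fun t ht' s hs => by linarith [hR t ht' s hs, hw0 t s]⟩
  · intro s
    have h1 : wb A C1 k t1 η t1 s = A := by simp [wb]
    rw [h1]
    linarith [h0 s]
  · intro t ht' s _
    obtain ⟨hc2, hd⟩ := hsol t ht'
    refine ⟨(hc2.sub (wb_contDiff hη t)).contDiffAt, _, (hd s).sub (wb_t t s), ?_⟩
    have h1 : deriv (deriv fun s => u t s - wb A C1 k t1 η t s) s =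
        deriv (deriv (u t)) s - deriv (deriv (wb A C1 k t1 η t)) s := by
      have e1 : (deriv fun s => u t s - wb A C1 k t1 η t s) = fun s => deriv (u t) s - deriv (wb A C1 k t1 η t) s := by
        ext x
        exact deriv_fun_sub ((hc2.differentiable (by simp)).differentiableAt)
          (((wb_contDiff hη t).differentiable (by simp)).differentiableAt)
      rw [e1]
      have e2 : ContDiff ℝ 1 (deriv (u t)) := c1_deriv hc2
      exact deriv_fun_sub ((e2.differentiable (by simp)).differentiableAt) (wb_ss hη t s).differentiableAt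
    rw [h1, (wb_ss hη t s).deriv]
    have h2 := hV t (Ioc_subset_Icc_self ht') s
    have h3 := mul_nonneg (hw0 t s) h2
    nlinarith [h3]

end

/-- the cutoff -/
theorem eta_exists {R : ℝ} (hR : 0 < R) : ∃ η : ℝ → ℝ, ContDiff ℝ 2 η ∧ (∀ s, 0 ≤ η s ∧ η s ≤ 1) ∧
    (∀ s, |s| ≤ R + 1 → η s = 1) ∧ ∃ C3, 0 ≤ C3 ∧ (∀ s, |deriv η s| ≤ C3 ∧ |deriv (deriv η) s| ≤ C3) ∧
      ∀ s, R + 2 < |s| → η s = 0 ∧ deriv η s = 0 ∧ deriv (deriv η) s = 0 := by
  let f : ContDiffBump (0 : ℝ) := ⟨R + 1, R + 2, by linarith, by linarith⟩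
  have hc : ContDiff ℝ 2 f := f.contDiff
  have hs : HasCompactSupport f := f.hasCompactSupport
  have hc1 : ContDiff ℝ 1 (deriv f) := c1_deriv hc
  have hc2 : Continuous (deriv (deriv f)) := hc1.continuous_deriv le_rfl
  obtain ⟨A1, hA1⟩ := hc1.continuous.bounded_above_of_compact_support hs.deriv
  obtain ⟨A2, hA2⟩ := hc2.bounded_above_of_compact_support hs.deriv.deriv
  refine ⟨f, hc, fun s => ⟨f.nonneg, f.le_one⟩, fun s h => ?_, max (max A1 A2) 0, le_max_right _ _,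
    fun s => ⟨?_, ?_⟩, fun s h => ?_⟩
  · refine f.one_of_mem_closedBall ?_
    rw [Metric.mem_closedBall, Real.dist_eq, sub_zero]
    exact h
  · exact (hA1 s).trans ((le_max_left _ _).trans (le_max_left _ _))
  · exact (hA2 s).trans ((le_max_right _ _).trans (le_max_left _ _))
  · have h0 : (f : ℝ → ℝ) =ᶠ[𝓝 s] fun _ => 0 := by
      have : ∀ᶠ x in 𝓝 s, R + 2 < |x| := (continuous_abs.tendsto s).eventually_const_lt h
      filter_upwards [this] with x hx
      refine f.zero_of_le_dist ?_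
      rw [Real.dist_eq, sub_zero]
      exact hx.le
    have h1 : deriv (f : ℝ → ℝ) =ᶠ[𝓝 s] fun _ => 0 := by
      filter_upwards [h0.eventuallyEq_nhds] with x hx
      rw [hx.deriv_eq]; simp
    refine ⟨h0.eq_of_nhds, h1.eq_of_nhds, ?_⟩
    rw [h1.deriv_eq]; simp

theorem gg_le {t t0 x : ℝ} (h0 : 0 < t0) (h : t0 ≤ t) : gg t x ≤ (√(4 * Real.pi * t0))⁻¹ := by
  unfold gg
  have hp := Real.pi_pos
  have h1 : Real.exp (-(x ^ 2 / (4 * t))) ≤ 1 := by
    rw [Real.exp_le_one_iff]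
    have : 0 < t := by linarith
    have : 0 ≤ x ^ 2 / (4 * t) := by positivity
    linarith
  have h2 : (√(4 * Real.pi * t))⁻¹ ≤ (√(4 * Real.pi * t0))⁻¹ := by
    apply inv_anti₀ (Real.sqrt_pos.2 (by positivity))
    exact Real.sqrt_le_sqrt (by gcongr)
  calc _ ≤ (√(4 * Real.pi * t0))⁻¹ * 1 := by gcongr
    _ = _ := mul_one _

/-- decay of the Gaussians -/
theorem gg_decay {t0 T : ℝ} (h0 : 0 < t0) (hT : t0 ≤ T) (C1 r : ℝ) (hC1 : 0 ≤ C1) : ∀ ε > 0, ∃ R, ∀ t ∈ Icc t0 T, ∀ s : ℝ,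
    R ≤ |s| → Real.exp (C1 * t) * gg t (s - r) ≤ ε := by
  intro ε hε
  have hp := Real.pi_pos
  have hTpos : 0 < T := by linarith
  set A := Real.exp (C1 * T) * (√(4 * Real.pi * t0))⁻¹ with hA
  have hApos : 0 < A := by positivity
  -- exp (-x^2/(4T)) small
  have hlim : Tendsto (fun x : ℝ => A * Real.exp (-(x ^ 2 / (4 * T)))) atTop (𝓝 (A * 0)) := by
    refine Tendsto.const_mul A (Real.tendsto_exp_neg_atTop_nhds_zero.comp ?_)
    exact (tendsto_pow_atTop (by norm_num)).atTop_div_const (by positivity)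
  rw [mul_zero] at hlim
  obtain ⟨R0, hR0⟩ := (eventually_atTop.1 (hlim.eventually_lt_const hε))
  refine ⟨max R0 0 + |r|, fun t ht s hs => ?_⟩
  have hx : max R0 0 ≤ |s - r| := by
    have := abs_sub_abs_le_abs_sub s r
    linarith
  have htpos : 0 < t := by linarith [ht.1]
  have h1 : gg t (s - r) ≤ (√(4 * Real.pi * t0))⁻¹ * Real.exp (-(|s - r| ^ 2 / (4 * T))) := by
    unfold gg
    have h2 : (√(4 * Real.pi * t))⁻¹ ≤ (√(4 * Real.pi * t0))⁻¹ := by
      apply inv_anti₀ (Real.sqrt_pos.2 (by positivity))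
      exact Real.sqrt_le_sqrt (by have := ht.1; gcongr)
    have h3 : Real.exp (-((s - r) ^ 2 / (4 * t))) ≤ Real.exp (-(|s - r| ^ 2 / (4 * T))) := by
      rw [Real.exp_le_exp, neg_le_neg_iff, sq_abs]
      have := ht.2
      gcongr
    gcongr
  have h4 : Real.exp (C1 * t) ≤ Real.exp (C1 * T) := by
    rw [Real.exp_le_exp]
    have := ht.2
    gcongr
  calc Real.exp (C1 * t) * gg t (s - r)
      ≤ Real.exp (C1 * T) * ((√(4 * Real.pi * t0))⁻¹ * Real.exp (-(|s - r| ^ 2 / (4 * T)))) := by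
        gcongr
        unfold gg; positivity
    _ = A * Real.exp (-(|s - r| ^ 2 / (4 * T))) := by rw [hA]; ring
    _ ≤ ε := (hR0 _ ((le_max_left _ _).trans hx)).le


/-- polynomial versus exponential -/
theorem poly_exp {a : ℝ} (ha : 0 < a) (m : ℕ) :
    1 + (m : ℝ) ^ 2 ≤ max 1 (2 / a ^ 2) * Real.exp (a * m) := by
  have h1 := Real.quadratic_le_exp_of_nonneg (x := a * m) (by positivity)
  have h2 : (m : ℝ) ^ 2 = (2 / a ^ 2) * ((a * m) ^ 2 / 2) := by field_simp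
  have h3 : (1 : ℝ) ≤ max 1 (2 / a ^ 2) := le_max_left _ _
  have h4 : 2 / a ^ 2 ≤ max 1 (2 / a ^ 2) := le_max_right _ _
  have h5 : 0 ≤ a * m := by positivity
  calc 1 + (m : ℝ) ^ 2 = 1 * 1 + (2 / a ^ 2) * ((a * m) ^ 2 / 2) := by rw [← h2]; ring
    _ ≤ max 1 (2 / a ^ 2) * 1 + max 1 (2 / a ^ 2) * ((a * m) ^ 2 / 2) := by gcongr
    _ = max 1 (2 / a ^ 2) * (1 + (a * m) ^ 2 / 2) := by ring
    _ ≤ max 1 (2 / a ^ 2) * Real.exp (a * m) := by gcongr; linarith

/-- the solution and its time derivative are below the barriers -/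
theorem core (hCM1 : T_CM1) {V : ℝ → ℝ} {v : ℝ → ℝ → ℝ} {a b B1 C1 M0 N k t1 T : ℝ} {η : ℝ → ℝ}
    (hη : ContDiff ℝ 2 η) (hVB : ∀ s, -B1 ≤ V s) (ht : t1 < T) (hat : a < t1) (hTb : T < b)
    (hV : ∀ t ∈ Icc t1 T, ∀ s, 0 ≤ C1 - k * η s - (k * (t - t1) * deriv η s) ^ 2 +
      k * (t - t1) * deriv (deriv η) s + V s)
    (hCl : Cl1 V a b v) (hM0 : 0 ≤ M0) (hN0 : 0 ≤ N)
    (hv : ∀ t ∈ Ioo a b, ∀ s, 0 ≤ v t s ∧ v t s ≤ M0)
    (hdec : ∀ ε > 0, ∃ R, ∀ t ∈ Ico t1 b, ∀ s, R ≤ |s| → v t s ≤ ε)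
    (hN : ∀ t ∈ Ico t1 b, ∀ s, |deriv (deriv (v t)) s - V s * v t s| ≤ N) :
    ∀ t ∈ Icc t1 T, ∀ s, v t s ≤ wb M0 C1 k t1 η t s ∧
      |deriv (deriv (v t)) s - V s * v t s| ≤ wb N C1 k t1 η t s := by
  have hsub : Icc t1 T ⊆ Ioo a b := fun t ht' => ⟨by linarith [ht'.1], by linarith [ht'.2]⟩
  have hI1 : ∀ t ∈ Icc t1 T, ∀ s, v t s ≤ wb M0 C1 k t1 η t s := by
    refine barrier hCM1 hM0 hη hVB ht hV v (hCl.cont0.mono (prod_mono hsub subset_rfl)) ?_
      (fun s => (hv t1 (hsub ⟨le_rfl, ht.le⟩) s).2) (fun t ht' => ?_)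
    · intro ε hε
      obtain ⟨R, hR⟩ := hdec ε hε
      exact ⟨R, fun t ht' s hs => hR t ⟨ht'.1, by linarith [ht'.2]⟩ s hs⟩
    · have := hsub (Ioc_subset_Icc_self ht')
      exact ⟨hCl.c2 t this, hCl.heat t this⟩
  -- difference quotients
  have hmv : ∀ t ∈ Icc t1 T, ∀ h, 0 < h → t + h < b → ∀ s, |v (t + h) s - v t s| ≤ N * h := by
    intro t ht' h hh hb s
    have := (convex_Icc t (t + h)).norm_image_sub_le_of_norm_hasDerivWithin_le (f := fun τ => v τ s) (C := N)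
      (f' := fun τ => deriv (deriv (v τ)) s - V s * v τ s) (x := t) (y := t + h)
      (fun τ hτ => (hCl.heat τ ⟨by linarith [hτ.1, ht'.1], by linarith [hτ.2]⟩ s).hasDerivWithinAt)
      (fun τ hτ => by
        rw [Real.norm_eq_abs]
        exact hN τ ⟨by linarith [hτ.1, ht'.1], by linarith [hτ.2]⟩ s)
      ⟨le_rfl, by linarith⟩ ⟨by linarith, le_rfl⟩
    rw [Real.norm_eq_abs, Real.norm_eq_abs, add_sub_cancel_left, abs_of_pos hh] at this
    exact this
  have hq : ∀ σ : ℝ, |σ| = 1 → ∀ h, 0 < h → h < b - T → ∀ t ∈ Icc t1 T, ∀ s,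
      σ * ((v (t + h) s - v t s) / h) ≤ wb N C1 k t1 η t s := by
    intro σ hσ h hh hb
    have hsub2 : ∀ t ∈ Icc t1 T, t + h ∈ Ioo a b := fun t ht' => ⟨by linarith [ht'.1], by linarith [ht'.2]⟩
    refine barrier hCM1 hN0 hη hVB ht hV (fun t s => σ * ((v (t + h) s - v t s) / h)) ?_ ?_ ?_ ?_
    · have c1 : ContinuousOn (fun z : ℝ × ℝ => v z.1 z.2) (Icc t1 T ×ˢ univ) :=
        hCl.cont0.mono (prod_mono hsub subset_rfl)
      have c2 : ContinuousOn (fun z : ℝ × ℝ => v (z.1 + h) z.2) (Icc t1 T ×ˢ univ) := by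
        refine hCl.cont0.comp (f := fun z : ℝ × ℝ => (z.1 + h, z.2)) (by fun_prop) ?_
        intro z hz
        exact ⟨hsub2 z.1 hz.1, mem_univ _⟩
      exact ((c2.sub c1).div_const h).const_mul σ
    · intro ε hε
      obtain ⟨R, hR⟩ := hdec (ε * h) (by positivity)
      refine ⟨R, fun t ht' s hs => ?_⟩
      have e1 := hR t ⟨ht'.1, by linarith [ht'.2]⟩ s hs
      have e2 := hR (t + h) ⟨by linarith [ht'.1], (hsub2 t ht').2⟩ s hs
      have e3 := (hv t (hsub ht') s).1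
      have e4 := (hv (t + h) (hsub2 t ht') s).1
      have e5 : |v (t + h) s - v t s| ≤ ε * h := by
        rw [abs_le]; constructor <;> linarith
      have e6 : |(v (t + h) s - v t s) / h| ≤ ε := by
        rw [abs_div, abs_of_pos hh, div_le_iff₀ hh]; exact e5
      calc σ * ((v (t + h) s - v t s) / h) ≤ |σ * ((v (t + h) s - v t s) / h)| := le_abs_self _
        _ = |(v (t + h) s - v t s) / h| := by rw [abs_mul, hσ, one_mul]
        _ ≤ ε := e6
    · intro s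
      have e5 := hmv t1 ⟨le_rfl, ht.le⟩ h hh (hsub2 t1 ⟨le_rfl, ht.le⟩).2 s
      have e6 : |(v (t1 + h) s - v t1 s) / h| ≤ N := by
        rw [abs_div, abs_of_pos hh, div_le_iff₀ hh]; exact e5
      calc σ * ((v (t1 + h) s - v t1 s) / h) ≤ |σ * ((v (t1 + h) s - v t1 s) / h)| := le_abs_self _
        _ = |(v (t1 + h) s - v t1 s) / h| := by rw [abs_mul, hσ, one_mul]
        _ ≤ N := e6
    · intro t ht'
      have hta := hsub (Ioc_subset_Icc_self ht')
      have htb := hsub2 t (Ioc_subset_Icc_self ht')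
      have c1 := hCl.c2 t hta
      have c2 := hCl.c2 (t + h) htb
      refine ⟨((c2.sub c1).div_const h).const_smul σ, fun s => ?_⟩
      have d1 := hCl.heat t hta s
      have d2 : HasDerivAt (fun τ => v (τ + h) s) (deriv (deriv (v (t + h))) s - V s * v (t + h) s) t := by
        have := (hCl.heat (t + h) htb s).comp_add_const t h
        exact this
      have d3 := ((d2.fun_sub d1).div_const h).const_mul σ
      have e1 : (deriv fun s => σ * ((v (t + h) s - v t s) / h)) =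
          fun s => σ * ((deriv (v (t + h)) s - deriv (v t) s) / h) := by
        ext x
        have f1 := (c1.differentiable (by simp)).differentiableAt (x := x)
        have f2 := (c2.differentiable (by simp)).differentiableAt (x := x)
        exact (((f2.hasDerivAt.fun_sub f1.hasDerivAt).div_const h).const_mul σ).deriv
      have e2 : deriv (deriv fun s => σ * ((v (t + h) s - v t s) / h)) s =
          σ * ((deriv (deriv (v (t + h))) s - deriv (deriv (v t)) s) / h) := by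
        rw [e1]
        have f1 := ((c1_deriv c1).differentiable (by simp)).differentiableAt (x := s)
        have f2 := ((c1_deriv c2).differentiable (by simp)).differentiableAt (x := s)
        exact (((f2.hasDerivAt.fun_sub f1.hasDerivAt).div_const h).const_mul σ).deriv
      rw [e2]
      convert! d3 using 1
      ring
  intro t ht' s
  refine ⟨hI1 t ht' s, ?_⟩
  have hd := (hCl.heat t (hsub ht') s).tendsto_slope_zero_right
  have hev : ∀ᶠ h in 𝓝[>] (0 : ℝ), 0 < h ∧ h < b - T := by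
    have : ∀ᶠ h in 𝓝 (0 : ℝ), h < b - T := eventually_lt_nhds (by linarith)
    filter_upwards [self_mem_nhdsWithin, nhdsWithin_le_nhds this] with h h1 h2
    exact ⟨h1, h2⟩
  rw [abs_le]
  constructor
  · refine ge_of_tendsto hd ?_
    filter_upwards [hev] with h hh
    have := hq (-1) (by norm_num) h hh.1 hh.2 t ht' s
    rw [smul_eq_mul, inv_mul_eq_div]
    linarith
  · refine le_of_tendsto hd ?_
    filter_upwards [hev] with h hh
    have := hq 1 (by norm_num) h hh.1 hh.2 t ht' s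
    rw [smul_eq_mul, inv_mul_eq_div]
    linarith


/-- the inequality for the barrier -/
theorem barrier_ineq {F : ℝ → ℝ} {K0 : ℝ} (hFB : FB F K0) (hpos : ∀ s, 0 < F s) {C1 C3 R T κ t1 : ℝ} {η : ℝ → ℝ} {m : ℕ}
    (hT : 0 < T) (ht1 : 0 < t1) (hη01 : ∀ s, 0 ≤ η s ∧ η s ≤ 1)
    (hηC : ∀ s, |deriv η s| ≤ C3 ∧ |deriv (deriv η) s| ≤ C3)
    (hηout : ∀ s, R + 2 < |s| → η s = 0 ∧ deriv η s = 0 ∧ deriv (deriv η) s = 0)
    (hκ : 0 < κ) (hκ1 : κ * (1 + T ^ 2 * C3 ^ 2 + T * C3) ≤ ((R + 3) ^ 2)⁻¹) (hκ2 : κ ≤ 1)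
    (hV : ∀ s, (m : ℝ) ^ 2 / F s ^ 2 - C1 ≤ Vm F m s) :
    ∀ t ∈ Icc t1 T, ∀ s, 0 ≤ C1 - κ * m * η s - (κ * m * (t - t1) * deriv η s) ^ 2 +
      κ * m * (t - t1) * deriv (deriv η) s + Vm F m s := by
  intro t ht s
  have hVs := hV s
  have htt : 0 ≤ t - t1 := by linarith [ht.1]
  have htT : t - t1 ≤ T := by linarith [ht.2]
  rcases lt_or_ge (R + 2) |s| with h | h
  · obtain ⟨h1, h2, h3⟩ := hηout s h
    rw [h1, h2, h3]
    have : 0 ≤ (m : ℝ) ^ 2 / F s ^ 2 := by positivity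
    nlinarith
  · obtain ⟨h1, h2⟩ := hη01 s
    obtain ⟨h3, h4⟩ := hηC s
    have hF : F s ≤ R + 3 := by linarith [hFB.up s]
    have hm : (m : ℝ) ≤ (m : ℝ) ^ 2 := by
      rcases Nat.eq_zero_or_pos m with rfl | hm
      · simp
      · have : (1 : ℝ) ≤ m := by exact_mod_cast hm
        nlinarith
    have hm0 : (0 : ℝ) ≤ m := by positivity
    have e1 : (m : ℝ) ^ 2 * ((R + 3) ^ 2)⁻¹ ≤ (m : ℝ) ^ 2 / F s ^ 2 := by
      rw [div_eq_mul_inv]
      have := hpos s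
      gcongr
    have e2 : κ * m * η s ≤ κ * m ^ 2 := by
      calc κ * m * η s ≤ κ * m * 1 := by gcongr
        _ ≤ κ * m ^ 2 := by rw [mul_one]; gcongr
    have e3 : (κ * m * (t - t1) * deriv η s) ^ 2 ≤ κ * (m ^ 2 * (T ^ 2 * C3 ^ 2)) := by
      rw [← sq_abs, abs_mul, abs_of_nonneg (by positivity : 0 ≤ κ * m * (t - t1))]
      calc (κ * m * (t - t1) * |deriv η s|) ^ 2 ≤ (κ * m * T * C3) ^ 2 := by gcongr
        _ = κ * (κ * (m ^ 2 * (T ^ 2 * C3 ^ 2))) := by ring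
        _ ≤ κ * (1 * (m ^ 2 * (T ^ 2 * C3 ^ 2))) := by gcongr
        _ = _ := by rw [one_mul]
    have e4 : -(κ * m ^ 2 * (T * C3)) ≤ κ * m * (t - t1) * deriv (deriv η) s := by
      have : |κ * m * (t - t1) * deriv (deriv η) s| ≤ κ * m ^ 2 * (T * C3) := by
        rw [abs_mul, abs_of_nonneg (by positivity : 0 ≤ κ * m * (t - t1))]
        calc κ * m * (t - t1) * |deriv (deriv η) s| ≤ κ * m ^ 2 * T * C3 := by gcongr
          _ = _ := by ring
      linarith [neg_abs_le (κ * m * (t - t1) * deriv (deriv η) s)]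
    have e5 : (m : ℝ) ^ 2 * (κ * (1 + T ^ 2 * C3 ^ 2 + T * C3)) ≤ (m : ℝ) ^ 2 * ((R + 3) ^ 2)⁻¹ := by gcongr
    nlinarith

theorem fin_const {C0 d M0 B1 N : ℝ} (hC0 : 0 < C0) (hd0 : 0 < d) (hM0p : 0 < M0) (hB1' : 1 ≤ B1)
    (hN : N = C0 * (B1 ^ 2 + B1) * M0 / d + B1 * M0) :
    2 * M0 + (N + B1 * M0) ≤ (2 * C0 / d + 4) * M0 * B1 ^ 2 := by
  have hB2 : B1 ≤ B1 ^ 2 := by nlinarith
  have hB3 : 1 ≤ B1 ^ 2 := hB1'.trans hB2
  have e1 : C0 * (B1 ^ 2 + B1) * M0 / d ≤ 2 * C0 / d * M0 * B1 ^ 2 := by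
    rw [show 2 * C0 / d * M0 * B1 ^ 2 = C0 * (B1 ^ 2 + B1 ^ 2) * M0 / d by ring]
    gcongr
  have e2 : B1 * M0 ≤ B1 ^ 2 * M0 := mul_le_mul_of_nonneg_right hB2 hM0p.le
  have e3 : 1 * M0 ≤ B1 ^ 2 * M0 := mul_le_mul_of_nonneg_right hB3 hM0p.le
  have e4 : (2 * C0 / d + 4) * M0 * B1 ^ 2 = 2 * C0 / d * M0 * B1 ^ 2 + 4 * (B1 ^ 2 * M0) := by ring
  rw [hN, e4]
  linarith

theorem kdec (hFBt : T_FB) (hMLK : T_MLK) (hMCt : T_MC) (hCM1 : T_CM1) (hKPOS : T_KPOS) (hVMt : T_VM) : T_KDEC := by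
  intro F hF R hR δ T hδ hδT
  obtain ⟨K0, hFB⟩ := hFBt F hF
  obtain ⟨C1, hC1, hVM⟩ := hVMt F hF
  obtain ⟨C0, hC0, hMC⟩ := hMCt
  obtain ⟨η, hη, hη01, hη1, C3, hC3, hηC, hηout⟩ := eta_exists hR
  have hT : 0 < T := hδ.trans hδT
  have hp := Real.pi_pos
  set κ : ℝ := ((R + 3) ^ 2)⁻¹ / (1 + T ^ 2 * C3 ^ 2 + T * C3) with hκd
  have hden : 1 ≤ 1 + T ^ 2 * C3 ^ 2 + T * C3 := by
    have : 0 ≤ T ^ 2 * C3 ^ 2 + T * C3 := by positivity
    linarith
  have hκ : 0 < κ := by positivity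
  have hκ1 : κ * (1 + T ^ 2 * C3 ^ 2 + T * C3) ≤ ((R + 3) ^ 2)⁻¹ := by
    rw [hκd, div_mul_cancel₀ _ (by linarith)]
  have hκ2 : κ ≤ 1 := by
    have h1 : ((R + 3) ^ 2)⁻¹ ≤ 1 := inv_le_one_of_one_le₀ (by nlinarith)
    calc κ ≤ κ * (1 + T ^ 2 * C3 ^ 2 + T * C3) := le_mul_of_one_le_right hκ.le hden
      _ ≤ 1 := hκ1.trans h1
  set t1 : ℝ := δ / 2 with ht1
  set d : ℝ := min (δ / 8) 1 with hd
  have hd0 : 0 < d := lt_min (by positivity) one_pos
  have hd1 : d ≤ 1 := min_le_right _ _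
  have hd8 : d ≤ δ / 8 := min_le_left _ _
  set M0 : ℝ := Real.exp (C1 * (2 * T)) * (√(4 * Real.pi * (δ / 8)))⁻¹ with hM0
  have hM0p : 0 < M0 := by positivity
  set a0 : ℝ := κ * δ / 8 with ha0
  have ha0p : 0 < a0 := by positivity
  set C5 : ℝ := (2 * C0 / d + 4) * M0 * Real.exp (C1 * T) * C1 ^ 2 with hC5
  have hC5p : 0 < C5 := by positivity
  refine ⟨κ * δ / 4, by positivity, C5 * max 1 (2 / a0 ^ 2) ^ 2, by positivity, ?_⟩
  intro m B K hB hB1 hK r
  obtain ⟨hVm1, hVm2, hVm3⟩ := hVM m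
  set V : ℝ → ℝ := Vm F m with hVd
  set B1 : ℝ := C1 * (1 + (m : ℝ) ^ 2) with hB1d
  have hB1' : 1 ≤ B1 := by
    have : (1 : ℝ) ≤ 1 + (m : ℝ) ^ 2 := by have : 0 ≤ (m : ℝ) ^ 2 := by positivity
                                           linarith
    nlinarith
  have hVc : Continuous V := by
    have : LipschitzWith (Real.toNNReal B1) V := by
      refine LipschitzWith.of_dist_le_mul fun x y => ?_
      rw [Real.coe_toNNReal _ (by linarith), Real.dist_eq, Real.dist_eq]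
      exact hVm3 x y
    exact this.continuous
  have hVlow : ∀ s, -C1 ≤ V s := fun s => by
    have h1 := hVm2 s
    have : 0 ≤ (m : ℝ) ^ 2 / F s ^ 2 := by positivity
    linarith
  have hKP := hKPOS V B B1 C1 K hB1 hB hVlow hVm3 hK
  set v : ℝ → ℝ → ℝ := fun t s => K t s r with hv
  have hvM : ∀ t ∈ Ioo (δ / 8) (2 * T), ∀ s, 0 ≤ v t s ∧ v t s ≤ M0 := by
    intro t ht s
    have h1 := hKP t (by linarith [ht.1]) s r
    refine ⟨h1.1, h1.2.trans ?_⟩
    have h2 : gg t (s - r) ≤ (√(4 * Real.pi * (δ / 8)))⁻¹ := gg_le (by positivity) ht.1.le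
    have h3 : Real.exp (C1 * t) ≤ Real.exp (C1 * (2 * T)) := by
      rw [Real.exp_le_exp]
      have := ht.2.le
      gcongr
    have h4 : 0 ≤ gg t (s - r) := by unfold gg; positivity
    rw [hM0]
    exact mul_le_mul h3 h2 h4 (Real.exp_pos _).le
  have hMild0 := (hMLK V B K hVc hB hK).1 r
  have hMild : Mild1 V (δ / 8) v :=
    ⟨hMild0.cont.mono (prod_mono (Ioi_subset_Ioi (by positivity)) subset_rfl),
      fun τ t h1 h2 s => hMild0.duh τ t (by linarith) h2 s⟩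
  obtain ⟨hCl, hest⟩ := hMC V B1 B1 hB1' (by linarith) hVm1 hVm3 (δ / 8) (2 * T) M0 v (by linarith) hMild
    (fun t ht s => by rw [abs_of_nonneg (hvM t ht s).1]; exact (hvM t ht s).2)
  have hest2 : ∀ t ∈ Ico t1 (2 * T), ∀ s, |deriv (deriv (v t)) s| ≤ C0 * (B1 ^ 2 + B1) * M0 / d := fun t ht s =>
    (hest d hd0 hd1 t ⟨by rw [ht1] at ht; linarith [ht.1], ht.2⟩ s).2
  set N : ℝ := C0 * (B1 ^ 2 + B1) * M0 / d + B1 * M0 with hN
  have hNp : 0 ≤ N := by positivity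
  have hNb : ∀ t ∈ Ico t1 (2 * T), ∀ s, |deriv (deriv (v t)) s - V s * v t s| ≤ N := by
    intro t ht s
    have h1 := hest2 t ht s
    have h2 := hvM t ⟨by rw [ht1] at ht; linarith [ht.1], ht.2⟩ s
    refine (abs_sub _ _).trans ?_
    rw [abs_mul, abs_of_nonneg h2.1]
    have h3 : |V s| * v t s ≤ B1 * M0 := mul_le_mul (hVm1 s) h2.2 h2.1 (by linarith)
    linarith
  have hcore := core (a := δ / 8) (b := 2 * T) (k := κ * m) (t1 := t1) (T := T) (N := N) (M0 := M0) (C1 := C1) hCM1 hη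
    (B1 := B1) (V := V) (v := v)
    (fun s => by have := (abs_le.1 (hVm1 s)).1; linarith) (by rw [ht1]; linarith) (by rw [ht1]; linarith)
    (by linarith)
    (barrier_ineq hFB hF.pos hT (by rw [ht1]; positivity) hη01 hηC hηout hκ hκ1 hκ2 hVm2)
    hCl hM0p.le hNp hvM ?_ hNb
  swap
  · intro ε hε
    obtain ⟨R1, hR1⟩ := gg_decay (t0 := t1) (T := 2 * T) (by rw [ht1]; positivity) (by rw [ht1]; linarith) C1 r
      (by linarith) ε hε
    refine ⟨R1, fun t ht s hs => ?_⟩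
    exact ((hKP t (by rw [ht1] at ht; linarith [ht.1]) s r).2).trans (hR1 t ⟨ht.1, ht.2.le⟩ s hs)
  -- the barrier in the core
  set X : ℝ := Real.exp (C1 * T) * Real.exp (-(κ * m * (δ / 2))) with hX
  have hXp : 0 < X := by positivity
  have hwb : ∀ A, 0 ≤ A → ∀ t ∈ Icc δ T, ∀ s, |s| ≤ R + 1 → wb A C1 (κ * m) t1 η t s ≤ A * X := by
    intro A hA t ht s hs
    unfold wb
    rw [hη1 s hs, hX, ← Real.exp_add]
    have h1 : C1 * (t - t1) ≤ C1 * T := by
      have : t - t1 ≤ T := by rw [ht1]; linarith [ht.2]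
      gcongr
    have h2 : κ * m * (δ / 2) ≤ κ * m * (t - t1) := by
      have : δ / 2 ≤ t - t1 := by rw [ht1]; linarith [ht.1]
      gcongr
    have h3 : C1 * (t - t1) - κ * m * (t - t1) * 1 ≤ C1 * T + -(κ * m * (δ / 2)) := by linarith
    gcongr
  have hsubT : ∀ t ∈ Icc δ T, t ∈ Icc t1 T := fun t ht => ⟨by rw [ht1]; linarith [ht.1], ht.2⟩
  have hInab : ∀ t ∈ Icc δ T, t ∈ Ioo (δ / 8) (2 * T) := fun t ht => ⟨by linarith [ht.1], by linarith [ht.2]⟩
  have b0 : ∀ t ∈ Icc δ T, ∀ s, |s| ≤ R + 1 → |v t s| ≤ M0 * X := fun t ht s hs => by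
    rw [abs_of_nonneg (hvM t (hInab t ht) s).1]
    exact ((hcore t (hsubT t ht) s).1).trans (hwb M0 hM0p.le t ht s hs)
  have b1 : ∀ t ∈ Icc δ T, ∀ s, |s| ≤ R + 1 → |deriv (deriv (v t)) s - V s * v t s| ≤ N * X := fun t ht s hs =>
    ((hcore t (hsubT t ht) s).2).trans (hwb N hNp t ht s hs)
  have b2 : ∀ t ∈ Icc δ T, ∀ s, |s| ≤ R + 1 → |deriv (deriv (v t)) s| ≤ (N + B1 * M0) * X := by
    intro t ht s hs
    have h1 := b0 t ht s hs
    have h2 := b1 t ht s hs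
    have h3 : |V s * v t s| ≤ B1 * (M0 * X) := by
      rw [abs_mul]
      exact mul_le_mul (hVm1 s) h1 (abs_nonneg _) (by linarith)
    have h4 : deriv (deriv (v t)) s = (deriv (deriv (v t)) s - V s * v t s) + V s * v t s := by ring
    rw [h4]
    refine (abs_add_le _ _).trans ?_
    have h5 : (N + B1 * M0) * X = N * X + B1 * (M0 * X) := by ring
    linarith
  have b3 : ∀ t ∈ Icc δ T, ∀ s, |s| ≤ R → |deriv (v t) s| ≤ (2 * M0 + (N + B1 * M0)) * X := by
    intro t ht s hs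
    have hs' := abs_le.1 hs
    have hc2 := hCl.c2 t (hInab t ht)
    have hdiff : Differentiable ℝ (v t) := hc2.differentiable (by simp)
    obtain ⟨ξ, hξ, hξe⟩ := exists_deriv_eq_slope (v t) (show s < s + 1 by linarith)
      hdiff.continuous.continuousOn hdiff.differentiableOn
    have hξR : |ξ| ≤ R + 1 := by
      rw [abs_le]; constructor <;> linarith [hξ.1, hξ.2]
    have h1 : |deriv (v t) ξ| ≤ 2 * M0 * X := by
      rw [hξe, show s + 1 - s = 1 by ring, div_one]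
      have e1 := b0 t ht s (by linarith)
      have e2 := b0 t ht (s + 1) (by rw [abs_le]; constructor <;> linarith)
      refine (abs_sub _ _).trans ?_
      linarith
    have h2 : |deriv (v t) s - deriv (v t) ξ| ≤ (N + B1 * M0) * X := by
      have hc1 := c1_deriv hc2
      have := (convex_Icc (-(R + 1)) (R + 1)).norm_image_sub_le_of_norm_deriv_le (f := deriv (v t))
        (C := (N + B1 * M0) * X) (x := ξ) (y := s)
        (fun x _ => (hc1.differentiable (by simp)).differentiableAt)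
        (fun x hx => by rw [Real.norm_eq_abs]; exact b2 t ht x (abs_le.2 hx))
        (abs_le.1 hξR) (abs_le.1 (by linarith))
      rw [Real.norm_eq_abs, Real.norm_eq_abs] at this
      refine this.trans ?_
      have h3 : |s - ξ| ≤ 1 := by rw [abs_le]; constructor <;> linarith [hξ.1, hξ.2]
      exact mul_le_of_le_one_right (by positivity) h3
    have h3 : deriv (v t) s = (deriv (v t) s - deriv (v t) ξ) + deriv (v t) ξ := by ring
    rw [h3]
    refine (abs_add_le _ _).trans ?_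
    linarith
  -- the final constant
  have hfin : (2 * M0 + (N + B1 * M0)) * X ≤ C5 * max 1 (2 / a0 ^ 2) ^ 2 * Real.exp (-(κ * δ / 4 * m)) := by
    have h1 : 2 * M0 + (N + B1 * M0) ≤ (2 * C0 / d + 4) * M0 * B1 ^ 2 :=
      fin_const hC0 hd0 hM0p hB1' hN
    have h2 : B1 ^ 2 ≤ C1 ^ 2 * (max 1 (2 / a0 ^ 2) ^ 2 * Real.exp (2 * (a0 * m))) := by
      have h3 := poly_exp ha0p m
      rw [hB1d, mul_pow]
      have h4 : (1 + (m : ℝ) ^ 2) ^ 2 ≤ (max 1 (2 / a0 ^ 2) * Real.exp (a0 * m)) ^ 2 := by gcongr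
      rw [mul_pow, ← Real.exp_nat_mul] at h4
      push_cast at h4
      gcongr
    have h5 : Real.exp (2 * (a0 * m)) * Real.exp (-(κ * m * (δ / 2))) = Real.exp (-(κ * δ / 4 * m)) := by
      rw [← Real.exp_add]
      congr 1
      rw [ha0]
      ring
    calc (2 * M0 + (N + B1 * M0)) * X ≤ ((2 * C0 / d + 4) * M0 * B1 ^ 2) * X := by gcongr
      _ ≤ ((2 * C0 / d + 4) * M0 * (C1 ^ 2 * (max 1 (2 / a0 ^ 2) ^ 2 * Real.exp (2 * (a0 * m))))) * X := by gcongr
      _ = C5 * max 1 (2 / a0 ^ 2) ^ 2 * (Real.exp (2 * (a0 * m)) * Real.exp (-(κ * m * (δ / 2)))) := by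
          rw [hC5, hX]; ring
      _ = _ := by rw [h5]
  intro t ht s hs
  have hpos1 : 0 ≤ (N + B1 * M0) * X := by positivity
  have hM0X : 0 ≤ M0 * X := by positivity
  have hBMX : 0 ≤ B1 * M0 * X := by positivity
  have hexp1 : (2 * M0 + (N + B1 * M0)) * X = 2 * (M0 * X) + (N + B1 * M0) * X := by ring
  have hexp2 : (N + B1 * M0) * X = N * X + B1 * M0 * X := by ring
  refine ⟨?_, ?_, ?_, ?_⟩
  · refine le_trans (b0 t ht s (by linarith)) (le_trans ?_ hfin)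
    linarith
  · exact (b3 t ht s hs).trans hfin
  · refine le_trans (b2 t ht s (by linarith)) (le_trans ?_ hfin)
    linarith
  · have h1 : deriv (fun τ => K τ s r) t = deriv (deriv (v t)) s - V s * v t s :=
      (hCl.heat t (hInab t ht) s).deriv
    rw [h1]
    refine le_trans (b1 t ht s (by linarith)) (le_trans ?_ hfin)
    linarith

end Pool.Agent.H89.HK
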